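import Pool.Agent.J4H20.LV.Stm
import Pool.Agent.J4H97.TQ.G

/-! # Project LV, (GM): the `m`-th root with a parameter, modulo `ε ^ 2` -/

set_option autoImplicit false

namespace Pool.Agent.J4H97.LV

open Polynomial Pool.Agent.J4H19.TP Pool.Agent.J4H97.TQ

/-- **(GM)** -/
theorem t_GM : Pool.Agent.J4H20.LV.S_GM := by
  classical
  intro p' e a α hp' hα
  obtain ⟨p, rfl⟩ : ∃ p, p' = p + 2 := ⟨p' - 2, by omega⟩
  have hsub : p + 2 - 1 = p + 1 := by omega
  set F : ℚ[X][X] := ∏ i : Fin (p + 2) × Fin e, (X - C (C (a i.2) + X * C (α i))) with hF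
  have hm : F.Monic := monic_prod_of_monic _ _ fun i _ => monic_X_sub_C _
  have hd : F.natDegree = (p + 2) * e := by
    rw [hF, natDegree_prod_of_monic _ _ fun i _ => monic_X_sub_C _]
    simp only [natDegree_X_sub_C]
    simp
  have ht : ((p + 2 : ℕ) : ℚ[X]) * C (1 / ((p + 2 : ℕ) : ℚ)) = 1 := by
    have h0 : ((p + 2 : ℕ) : ℚ) ≠ 0 := by positivity
    have : ((p + 2 : ℕ) : ℚ[X]) = C ((p + 2 : ℕ) : ℚ) := (map_natCast C _).symm
    rw [this, ← C_mul, mul_one_div_cancel h0, C_1]
  obtain ⟨G, hG, hGn, hc⟩ := root_step p (C (1 / ((p + 2 : ℕ) : ℚ))) ht e F hm hd e le_rfl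
  have hc' : ∀ k, (p + 1) * e ≤ k → (F - G ^ (p + 2)).coeff k = 0 := fun k hk => hc k (by
    have : (p + 2) * e = (p + 1) * e + e := by ring
    omega)
  set A : ℚ[X] := ∏ j, (X - C (a j)) with hA
  have hAm : A.Monic := monic_prod_of_monic _ _ fun i _ => monic_X_sub_C _
  have hAn : A.natDegree = e := by
    rw [hA, natDegree_prod_of_monic _ _ fun i _ => monic_X_sub_C _]
    simp only [natDegree_X_sub_C]
    simp
  set A' : ℚ[X][X] := A.map C with hA'
  have hAm' : A'.Monic := hAm.map _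
  have hAn' : A'.natDegree = e := by rw [hA', hAm.natDegree_map, hAn]
  -- modulo the square of the parameter
  set I : Ideal ℚ[X] := Ideal.span {(X : ℚ[X]) ^ 2} with hI
  set mk := Ideal.Quotient.mk I with hmk
  have hnt : Nontrivial (ℚ[X] ⧸ I) := by
    rw [Ideal.Quotient.nontrivial_iff, hI, Ne, Ideal.span_singleton_eq_top]
    intro hu
    exact not_isUnit_X ((isUnit_pow_iff two_ne_zero).1 hu)
  have hX2 : (mk X) ^ 2 = 0 := by
    rw [← map_pow, hmk, Ideal.Quotient.eq_zero_iff_mem, hI]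
    exact Ideal.mem_span_singleton_self _
  have hFm : F.map mk = (A'.map mk) ^ (p + 2) := by
    have e1 : A'.map mk = ∏ j, (X - C (mk (C (a j)))) := by
      rw [hA', hA, Polynomial.map_map, Polynomial.map_prod]
      refine Finset.prod_congr rfl fun j _ => ?_
      simp
    have e2 : F.map mk = ∏ j : Fin e, ∏ i : Fin (p + 2),
        ((X - C (mk (C (a j)))) - C (mk X) * C (mk (C (α (i, j))))) := by
      rw [hF, Polynomial.map_prod, Fintype.prod_prod_type_right]
      refine Finset.prod_congr rfl fun j _ => Finset.prod_congr rfl fun i _ => ?_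
      rw [Polynomial.map_sub, map_X, map_C, map_add, map_mul, map_add, map_mul]
      ring
    rw [e1, e2, ← Finset.prod_pow]
    refine Finset.prod_congr rfl fun j _ => ?_
    have ht2 : (C (mk X) : (ℚ[X] ⧸ I)[X]) ^ 2 = 0 := by rw [← C_pow, hX2, C_0]
    rw [prod_lin (X - C (mk (C (a j)))) (C (mk X)) ht2 Finset.univ (fun i => C (mk (C (α (i, j)))))]
    have e3 : ∑ i : Fin (p + 2), (C (mk (C (α (i, j)))) : (ℚ[X] ⧸ I)[X]) = 0 := by
      rw [← map_sum, ← map_sum, ← map_sum, hα j]
      simp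
    rw [e3]
    simp
  have hAG : A'.map mk = G.map mk := by
    refine root_uniq p e (mk (C (1 / ((p + 2 : ℕ) : ℚ)))) ?_ _ _ ((F - G ^ (p + 2)).map mk)
      (hAm'.map _) (by rw [hAm'.natDegree_map, hAn']) (hG.map _) (by rw [hG.natDegree_map, hGn]) ?_ ?_
    · rw [← map_natCast mk, ← map_mul, ht, map_one]
    · intro k hk
      rw [coeff_map, hc' k hk, map_zero]
    · rw [← hFm, ← Polynomial.map_pow, ← Polynomial.map_add]
      congr 1
      ring
  have hdiv : ∀ k, ∃ q : ℚ[X], (G - A').coeff k = X ^ 2 * q := by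
    intro k
    have h1 : mk ((G - A').coeff k) = 0 := by
      have : (G.map mk).coeff k = (A'.map mk).coeff k := by rw [hAG]
      rw [coeff_map, coeff_map] at this
      rw [coeff_sub, map_sub, this, sub_self]
    rw [hmk, Ideal.Quotient.eq_zero_iff_mem, hI, Ideal.mem_span_singleton] at h1
    exact h1
  choose h hh using hdiv
  refine ⟨fun j => h (j : ℕ), fun j => (F - G ^ (p + 2)).coeff (j : ℕ), fun ε => ?_⟩
  have hmapF : F.map (evalRingHom ε) = ∏ i : Fin (p + 2) × Fin e, (X - C (a i.2 + ε * α i)) := by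
    rw [hF, Polynomial.map_prod]
    refine Finset.prod_congr rfl fun i _ => ?_
    rw [Polynomial.map_sub, map_X, map_C]
    congr 2
    simp only [coe_evalRingHom, eval_add, eval_mul, eval_C, eval_X]
  have hmapG : G.map (evalRingHom ε) =
      A + C (ε ^ 2) * ∑ j : Fin e, C ((h (j : ℕ)).eval ε) * X ^ (j : ℕ) := by
    ext k
    rw [coeff_map, coeff_add, coeff_C_mul, sum_coeff e (fun j => (h j).eval ε), coe_evalRingHom]
    have h1 : G.coeff k = A'.coeff k + (G - A').coeff k := by rw [coeff_sub]; ring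
    have h2 : (A'.coeff k).eval ε = A.coeff k := by rw [hA', coeff_map, eval_C]
    rw [h1, eval_add, h2]
    congr 1
    split_ifs with hk
    · rw [hh k]
      simp
    · have h3 : (G - A').coeff k = 0 := by
        rcases Nat.lt_or_ge e k with h4 | h4
        · rw [coeff_sub, coeff_eq_zero_of_natDegree_lt (by omega),
            coeff_eq_zero_of_natDegree_lt (by omega), sub_zero]
        · have h5 : k = e := by omega
          have h6 : G.coeff e = 1 := by rw [← hGn]; exact hG
          have h7 : A'.coeff e = 1 := by rw [← hAn']; exact hAm'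
          rw [h5, coeff_sub, h6, h7, sub_self]
      rw [h3]
      simp
  have hmapR : (F - G ^ (p + 2)).map (evalRingHom ε)
      = ∑ j : Fin ((p + 1) * e), C (((F - G ^ (p + 2)).coeff (j : ℕ)).eval ε) * X ^ (j : ℕ) := by
    ext k
    rw [coeff_map, sum_coeff ((p + 1) * e) (fun j => ((F - G ^ (p + 2)).coeff j).eval ε),
      coe_evalRingHom]
    split_ifs with h
    · rfl
    · rw [hc' k (by omega), eval_zero]
  show ∏ i : Fin (p + 2) × Fin e, (X - C (a i.2 + ε * α i)) =
    (A + C (ε ^ 2) * ∑ j : Fin e, C ((h (j : ℕ)).eval ε) * X ^ (j : ℕ)) ^ (p + 2) +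
      ∑ j : Fin ((p + 1) * e), C (((F - G ^ (p + 2)).coeff (j : ℕ)).eval ε) * X ^ (j : ℕ)
  rw [← hmapF, ← hmapG, ← hmapR, ← Polynomial.map_pow, ← Polynomial.map_add]
  congr 1
  ring

end Pool.Agent.J4H97.LV
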